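import Pool.Agent.W91.BH.Stm

set_option autoImplicit false

open MeasureTheory Finset
open scoped ContDiff

/-! # Building blocks -/

namespace Pool.Agent.W981.BH

open Pool.Agent.W91.BH

noncomputable section

variable {n : ℕ}

/-- integer vectors -/
def vz (t : Fin n → ℤ) : E n := WithLp.toLp 2 fun i => (t i : ℝ)

theorem sub_vz (x : E n) (t : Fin n → ℤ) (i : Fin n) : (x - vz t) i = x i - t i := by
  simp [vz]

/-- the box of translations -/
def box (n L : ℕ) : Finset (Fin n → ℤ) := Fintype.piFinset fun _ => Finset.Icc (1 : ℤ) L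

theorem card_box (n L : ℕ) : (box n L).card = L ^ n := by
  rw [box, Fintype.card_piFinset_const, Int.card_Icc]
  congr 1
  omega

theorem mem_box {L : ℕ} {t : Fin n → ℤ} (ht : t ∈ box n L) (i : Fin n) : 1 ≤ t i ∧ t i ≤ L :=
  Finset.mem_Icc.1 (Fintype.mem_piFinset.1 ht i)

/-- the mean of the translations -/
def Sop (L : ℕ) (e : Fin n → ℤ) (f : E n → ℝ) (x : E n) : ℝ :=
  ((L : ℝ) ^ n)⁻¹ * ∑ t ∈ box n L, f (x - vz fun i => e i * t i)

/-- the iteration -/
def Bm (L : ℕ) (e : Fin n → ℤ) (ψ : E n → ℝ) : ℕ → E n → ℝ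
  | 0 => ψ
  | m + 1 => fun x => Bm L e ψ m x - Sop L e (Bm L e ψ m) x

theorem contDiff_Sop {L : ℕ} {e : Fin n → ℤ} {f : E n → ℝ} (hf : ContDiff ℝ ∞ f) :
    ContDiff ℝ ∞ (Sop L e f) := by
  refine contDiff_const.mul (ContDiff.sum fun t _ => ?_)
  exact hf.comp (contDiff_id.sub contDiff_const)

theorem contDiff_Bm {L : ℕ} {e : Fin n → ℤ} {ψ : E n → ℝ} (hψ : ContDiff ℝ ∞ ψ) (m : ℕ) :
    ContDiff ℝ ∞ (Bm L e ψ m) := by
  induction m with
  | zero => exact hψ
  | succ m ih => exact ih.sub (contDiff_Sop ih)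

theorem sum_Sop {L : ℕ} {e : Fin n → ℤ} {ψ : E n → ℝ} (m : ℕ) (x : E n) :
    ψ x - Bm L e ψ m x = ∑ l ∈ range m, Sop L e (Bm L e ψ l) x := by
  induction m with
  | zero => simp [Bm]
  | succ m ih =>
    rw [Finset.sum_range_succ, ← ih]
    simp only [Bm]
    ring

/-- the support condition -/
def SB (L m : ℕ) (e : Fin n → ℤ) (f : E n → ℝ) : Prop := ∀ x, f x ≠ 0 → ∀ i,
  (e i = 1 → -1 < x i ∧ x i < 2 + m * L) ∧ (e i = -1 → -1 - m * L < x i ∧ x i < 2)

theorem supp_Sop {L m : ℕ} {e : Fin n → ℤ} {f : E n → ℝ} (hf : SB L m e f) {x : E n}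
    (hx : Sop L e f x ≠ 0) (i : Fin n) :
    (e i = 1 → 0 < x i ∧ x i < 2 + (m + 1) * L) ∧
      (e i = -1 → -1 - (m + 1) * L < x i ∧ x i < 1) := by
  obtain ⟨t, ht, h0⟩ : ∃ t ∈ box n L, f (x - vz fun i => e i * t i) ≠ 0 := by
    by_contra hcon
    refine hx ?_
    rw [Sop, Finset.sum_eq_zero, mul_zero]
    intro t ht
    by_contra h0
    exact hcon ⟨t, ht, h0⟩
  have h1 := hf _ h0 i
  rw [sub_vz] at h1
  obtain ⟨h2, h3⟩ := mem_box ht i
  have h2' : (1 : ℝ) ≤ (t i : ℝ) := by exact_mod_cast h2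
  have h3' : (t i : ℝ) ≤ (L : ℝ) := by exact_mod_cast h3
  constructor
  · intro he
    have h4 := h1.1 he
    rw [he] at h4
    push_cast at h4
    constructor
    · linarith [h4.1]
    · nlinarith [h4.2]
  · intro he
    have h4 := h1.2 he
    rw [he] at h4
    push_cast at h4
    constructor
    · nlinarith [h4.1]
    · linarith [h4.2]

theorem supp_Bm {L : ℕ} {e : Fin n → ℤ} {ψ : E n → ℝ}
    (hψ : ∀ x, ψ x ≠ 0 → ∀ i, -1 < x i ∧ x i < 2) (m : ℕ) : SB L m e (Bm L e ψ m) := by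
  induction m with
  | zero =>
    intro x hx i
    have h := hψ x hx i
    refine ⟨fun _ => ⟨h.1, ?_⟩, fun _ => ⟨?_, h.2⟩⟩
    · simpa using h.2
    · simpa using h.1
  | succ m ih =>
    intro x hx i
    have hL : (0 : ℝ) ≤ (L : ℝ) := Nat.cast_nonneg L
    by_cases h0 : Bm L e ψ m x = 0
    · have h1 : Sop L e (Bm L e ψ m) x ≠ 0 := by
        intro h1
        refine hx ?_
        simp only [Bm]
        rw [h0, h1, sub_zero]
      have h2 := supp_Sop ih h1 i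
      push_cast
      refine ⟨fun he => ⟨?_, (h2.1 he).2⟩, fun he => ⟨(h2.2 he).1, ?_⟩⟩
      · linarith [(h2.1 he).1]
      · linarith [(h2.2 he).2]
    · have h2 := ih x h0 i
      push_cast
      refine ⟨fun he => ⟨(h2.1 he).1, ?_⟩, fun he => ⟨?_, (h2.2 he).2⟩⟩
      · nlinarith [(h2.1 he).2]
      · nlinarith [(h2.2 he).1]

theorem compact_of_bounded {f : E n → ℝ} {R : ℝ} (hf : ∀ x, f x ≠ 0 → ∀ i, |x i| ≤ R) :
    HasCompactSupport f := by
  have hK : IsCompact ((EuclideanSpace.equiv (Fin n) ℝ) ⁻¹'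
      (Set.univ.pi fun _ : Fin n => Set.Icc (-R) R)) :=
    (EuclideanSpace.equiv (Fin n) ℝ).toHomeomorph.isCompact_preimage.2
      (isCompact_univ_pi fun _ => isCompact_Icc)
  refine HasCompactSupport.intro hK fun x hx => ?_
  by_contra h0
  refine hx ?_
  intro i _
  exact abs_le.1 (hf x h0 i)

theorem compact_Bm {L : ℕ} {e : Fin n → ℤ} {ψ : E n → ℝ} (he : ∀ i, e i = 1 ∨ e i = -1)
    (hψ : ∀ x, ψ x ≠ 0 → ∀ i, -1 < x i ∧ x i < 2) (m : ℕ) :
    HasCompactSupport (Bm L e ψ m) := by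
  refine compact_of_bounded (R := 2 + m * L) fun x hx i => ?_
  have h := supp_Bm (L := L) (e := e) hψ m x hx i
  have hL : (0 : ℝ) ≤ (m : ℝ) * (L : ℝ) := by positivity
  rw [abs_le]
  rcases he i with h1 | h1
  · have h2 := h.1 h1
    exact ⟨by linarith [h2.1], h2.2.le⟩
  · have h2 := h.2 h1
    exact ⟨by linarith [h2.1], by linarith [h2.2]⟩

/-- local boundedness with multiplicities -/
def Nb (f : E n → ℝ) (C : ℝ) : Prop := ∀ (x : E n) (T : Finset (Fin n → ℤ)),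
  ∑ t ∈ T, |f (x - vz t)| ≤ C

theorem nb_psi {ψ : E n → ℝ} (h0 : ∀ x, 0 ≤ ψ x) (h1 : ∀ x, ψ x ≤ 1)
    (hψ : ∀ x, ψ x ≠ 0 → ∀ i, -1 < x i ∧ x i < 2) : Nb ψ (4 ^ n) := by
  intro x T
  have h2 : ∑ t ∈ T, |ψ (x - vz t)| ≤
      ∑ t ∈ Fintype.piFinset fun i : Fin n => Finset.Icc (⌊x i⌋ - 2) (⌊x i⌋ + 1), (1 : ℝ) := by
    have h3 : ∑ t ∈ T, |ψ (x - vz t)| = ∑ t ∈ T.filter fun t => ψ (x - vz t) ≠ 0,
        |ψ (x - vz t)| := by
      rw [Finset.sum_filter_of_ne]
      intro t _ h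
      exact fun h4 => h (by rw [h4, abs_zero])
    rw [h3]
    calc ∑ t ∈ T.filter fun t => ψ (x - vz t) ≠ 0, |ψ (x - vz t)| ≤
        ∑ t ∈ T.filter fun t => ψ (x - vz t) ≠ 0, (1 : ℝ) := by
          refine Finset.sum_le_sum fun t _ => ?_
          rw [abs_of_nonneg (h0 _)]
          exact h1 _
      _ ≤ _ := by
          refine Finset.sum_le_sum_of_subset_of_nonneg ?_ fun _ _ _ => zero_le_one
          intro t ht
          rw [Fintype.mem_piFinset]
          intro i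
          have h4 := hψ _ (Finset.mem_filter.1 ht).2 i
          rw [sub_vz] at h4
          have h5 := Int.floor_le (x i)
          have h6 := Int.lt_floor_add_one (x i)
          rw [Finset.mem_Icc]
          constructor
          · have : ((⌊x i⌋ : ℤ) : ℝ) - 2 < (t i : ℝ) := by linarith [h4.2]
            have h7 : (⌊x i⌋ - 2 : ℤ) < t i := by exact_mod_cast this
            omega
          · have : (t i : ℝ) < ((⌊x i⌋ : ℤ) : ℝ) + 2 := by linarith [h4.1]
            have h7 : t i < (⌊x i⌋ + 2 : ℤ) := by exact_mod_cast this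
            omega
  refine h2.trans ?_
  rw [Finset.sum_const, Fintype.card_piFinset]
  simp only [Int.card_Icc, nsmul_eq_mul, mul_one]
  have h8 : ∀ i : Fin n, (⌊x i⌋ + 1 + 1 - (⌊x i⌋ - 2)).toNat = 4 := fun i => by omega
  simp only [h8]
  simp

theorem nb_Sop {L : ℕ} (hL : 0 < L) {e : Fin n → ℤ} {f : E n → ℝ} {C : ℝ} (hf : Nb f C) :
    Nb (Sop L e f) C := by
  intro x T
  have hpos : (0 : ℝ) < (L : ℝ) ^ n := by positivity
  have h1 : ∀ t ∈ T, |Sop L e f (x - vz t)| ≤ ((L : ℝ) ^ n)⁻¹ *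
      ∑ s ∈ box n L, |f ((x - vz fun i => e i * s i) - vz t)| := by
    intro t _
    rw [Sop, abs_mul, abs_of_pos (inv_pos.2 hpos)]
    refine mul_le_mul_of_nonneg_left ?_ (inv_pos.2 hpos).le
    refine (Finset.abs_sum_le_sum_abs _ _).trans (le_of_eq ?_)
    refine Finset.sum_congr rfl fun s _ => ?_
    rw [sub_right_comm]
  refine (Finset.sum_le_sum h1).trans ?_
  rw [← Finset.mul_sum, Finset.sum_comm]
  calc ((L : ℝ) ^ n)⁻¹ * ∑ s ∈ box n L, ∑ t ∈ T, |f ((x - vz fun i => e i * s i) - vz t)| ≤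
      ((L : ℝ) ^ n)⁻¹ * ∑ _s ∈ box n L, C :=
        mul_le_mul_of_nonneg_left (Finset.sum_le_sum fun s _ => hf _ T) (inv_pos.2 hpos).le
    _ = C := by
        rw [Finset.sum_const, card_box, nsmul_eq_mul, Nat.cast_pow, ← mul_assoc,
          inv_mul_cancel₀ hpos.ne', one_mul]

theorem nb_Bm {L : ℕ} (hL : 0 < L) {e : Fin n → ℤ} {ψ : E n → ℝ} {C : ℝ} (hψ : Nb ψ C)
    (m : ℕ) : Nb (Bm L e ψ m) (2 ^ m * C) := by
  induction m with
  | zero =>
    rw [pow_zero, one_mul]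
    exact hψ
  | succ m ih =>
    intro x T
    have h1 := ih x T
    have h2 := nb_Sop hL (e := e) ih x T
    calc ∑ t ∈ T, |Bm L e ψ (m + 1) (x - vz t)| ≤
        ∑ t ∈ T, (|Bm L e ψ m (x - vz t)| + |Sop L e (Bm L e ψ m) (x - vz t)|) :=
          Finset.sum_le_sum fun t _ => abs_sub _ _
      _ = ∑ t ∈ T, |Bm L e ψ m (x - vz t)| + ∑ t ∈ T, |Sop L e (Bm L e ψ m) (x - vz t)| :=
          Finset.sum_add_distrib
      _ ≤ 2 ^ m * C + 2 ^ m * C := add_le_add h1 h2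
      _ = 2 ^ (m + 1) * C := by ring

theorem small_Sop {L : ℕ} {e : Fin n → ℤ} (he : ∀ i, e i ≠ 0) {f : E n → ℝ}
    {C : ℝ} (hf : Nb f C) (x : E n) : |Sop L e f x| ≤ ((L : ℝ) ^ n)⁻¹ * C := by
  rw [Sop, abs_mul, abs_of_nonneg (by positivity : (0 : ℝ) ≤ ((L : ℝ) ^ n)⁻¹)]
  refine mul_le_mul_of_nonneg_left ?_ (by positivity)
  refine (Finset.abs_sum_le_sum_abs _ _).trans ?_
  have hinj : Function.Injective fun (t : Fin n → ℤ) (i : Fin n) => e i * t i := by
    intro t s h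
    funext i
    exact mul_left_cancel₀ (he i) (congrFun h i)
  have h1 := hf x ((box n L).image fun t i => e i * t i)
  rw [Finset.sum_image fun t _ s _ h => hinj h] at h1
  exact h1

theorem moment_Bm (hM : S_MOM) {L : ℕ} (hL : 0 < L) {e : Fin n → ℤ} {ψ : E n → ℝ}
    (he : ∀ i, e i = 1 ∨ e i = -1) (hψc : ContDiff ℝ ∞ ψ)
    (hψ : ∀ x, ψ x ≠ 0 → ∀ i, -1 < x i ∧ x i < 2) (m : ℕ) :
    ∀ β : Fin n → ℕ, ∑ i, β i < m → ∫ x, (∏ i, x i ^ β i) * Bm L e ψ m x = 0 := by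
  induction m with
  | zero =>
    intro β hβ
    exact absurd hβ (Nat.not_lt_zero _)
  | succ m ih =>
    intro β hβ
    have hc := (contDiff_Bm (L := L) (e := e) hψc m).continuous
    have hs := compact_Bm (L := L) he hψ m
    have hmon : Continuous fun x : E n => ∏ i, x i ^ β i := by fun_prop
    have h1 := hM n m _ hc hs ih β
    have hint : ∀ h : E n, Integrable fun x => (∏ i, x i ^ β i) * Bm L e ψ m (x - h) := by
      intro h
      refine Continuous.integrable_of_hasCompactSupport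
        (hmon.mul (hc.comp (continuous_id.sub continuous_const))) ?_
      refine HasCompactSupport.mul_left ?_
      exact hs.comp_homeomorph (Homeomorph.subRight h)
    have hint0 : Integrable fun x => (∏ i, x i ^ β i) * Bm L e ψ m x := by
      have := hint 0
      simpa using this
    have h2 : ∀ x : E n, (∏ i, x i ^ β i) * Bm L e ψ (m + 1) x =
        (∏ i, x i ^ β i) * Bm L e ψ m x - ((L : ℝ) ^ n)⁻¹ * ∑ t ∈ box n L,
          (∏ i, x i ^ β i) * Bm L e ψ m (x - vz fun i => e i * t i) := by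
      intro x
      simp only [Bm, Sop]
      rw [← Finset.mul_sum]
      ring
    have hpos : (0 : ℝ) < (L : ℝ) ^ n := by positivity
    simp only [h2]
    rw [integral_sub hint0 ((integrable_finsetSum _ fun t _ => hint _).const_mul _),
      integral_const_mul, integral_finsetSum _ fun t _ => hint _]
    rw [Finset.sum_congr rfl fun t _ => h1 (vz fun i => e i * t i) (by omega), Finset.sum_const,
      card_box, nsmul_eq_mul, Nat.cast_pow, ← mul_assoc, inv_mul_cancel₀ hpos.ne', one_mul,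
      sub_self]

theorem shape : S_PSI → S_MOM → S_SHAPE := by
  intro hP hM n N hn
  obtain ⟨ψ, hψc, hψ0, hψ1, hψone, hψs⟩ := hP n
  refine ⟨2 ^ (N + 1) * 4 ^ n * (2 ^ (N + 3)) ^ n, by positivity, N + 5, fun a ha σ hσ => ?_⟩
  set e : Fin n → ℤ := fun i => if σ i < 2 ^ (a - 1) then 1 else -1 with he
  have he1 : ∀ i, e i = 1 ∨ e i = -1 := fun i => by
    simp only [he]
    split_ifs
    · exact Or.inl rfl
    · exact Or.inr rfl
  have he0 : ∀ i, e i ≠ 0 := fun i => by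
    rcases he1 i with h | h <;> rw [h] <;> norm_num
  obtain ⟨b, hb⟩ : ∃ b, a = b + (N + 3) := ⟨a - (N + 3), by omega⟩
  have hb2 : 2 ≤ b := by omega
  set L : ℕ := 2 ^ b with hL
  have hL0 : 0 < L := by positivity
  have hLr : (L : ℝ) = 2 ^ b := by rw [hL]; push_cast; rfl
  have hL4 : (4 : ℝ) ≤ L := by
    rw [hLr]
    calc (4 : ℝ) = 2 ^ 2 := by norm_num
      _ ≤ 2 ^ b := pow_le_pow_right₀ (by norm_num) hb2
  have hK : ((N : ℝ) + 1) * L + 2 ≤ 2 ^ (a - 1) := by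
    have h1 : (2 : ℝ) ^ (a - 1) = L * 2 ^ (N + 2) := by
      rw [hLr, ← pow_add]
      congr 1
      omega
    have h2 : (N : ℝ) + 1 ≤ 2 ^ N := by
      have := Nat.lt_two_pow_self (n := N)
      exact_mod_cast this
    have h3 : (2 : ℝ) ^ (N + 2) = 4 * 2 ^ N := by ring
    rw [h1, h3]
    nlinarith [h2, hL4, Nat.cast_nonneg (α := ℝ) N]
  have hpa : (2 : ℝ) ^ a = 2 * 2 ^ (a - 1) := by
    rw [← pow_succ']
    congr 1
    omega
  have hσ1 : ∀ i, e i = 1 → 0 ≤ (σ i : ℝ) ∧ (σ i : ℝ) ≤ 2 ^ (a - 1) := by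
    intro i hi
    have h1 : σ i < 2 ^ (a - 1) := by
      by_contra h0
      simp only [he, if_neg h0] at hi
      norm_num at hi
    exact ⟨by exact_mod_cast (hσ i).1, by exact_mod_cast h1.le⟩
  have hσ2 : ∀ i, e i = -1 → (2 : ℝ) ^ (a - 1) ≤ (σ i : ℝ) ∧ (σ i : ℝ) + 1 ≤ 2 ^ a := by
    intro i hi
    have h1 : ¬ σ i < 2 ^ (a - 1) := by
      intro h0
      simp only [he, if_pos h0] at hi
      norm_num at hi
    have h2 : σ i + 1 ≤ 2 ^ a := (hσ i).2
    exact ⟨by exact_mod_cast not_lt.1 h1, by exact_mod_cast h2⟩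
  have hbig : ∀ x : E n, Bm L e ψ (N + 1) x ≠ 0 → ∀ i, -(σ i : ℝ) - 1 ≤ x i ∧
      x i ≤ (2 : ℝ) ^ a - (σ i : ℝ) + 1 := by
    intro x hx i
    have h := supp_Bm (L := L) (e := e) hψs (N + 1) x hx i
    push_cast at h
    rcases he1 i with h1 | h1
    · have h2 := h.1 h1
      have h3 := hσ1 i h1
      exact ⟨by linarith [h2.1, h3.1], by linarith [h2.2, h3.2]⟩
    · have h2 := h.2 h1
      have h3 := hσ2 i h1
      exact ⟨by linarith [h2.1, h3.1], by linarith [h2.2, h3.2]⟩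
  refine ⟨Bm L e ψ (N + 1), fun x => ψ x - Bm L e ψ (N + 1) x, ?_⟩
  constructor
  · exact contDiff_Bm hψc _
  · intro x hx
    rw [add_sub_cancel, hψone x fun i => ⟨(hx i).1, (hx i).2.le⟩]
  · intro x
    rw [add_sub_cancel]
    exact hψ0 x
  · intro x
    rw [sum_Sop]
    have h1 : ∀ l ∈ range (N + 1), |Sop L e (Bm L e ψ l) x| ≤
        ((L : ℝ) ^ n)⁻¹ * 4 ^ n * 2 ^ l := by
      intro l _
      refine (small_Sop he0 (nb_Bm hL0 (nb_psi hψ0 hψ1 hψs) l) x).trans (le_of_eq ?_)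
      ring
    refine (Finset.abs_sum_le_sum_abs _ _).trans ((Finset.sum_le_sum h1).trans ?_)
    rw [← Finset.mul_sum]
    have h2 : ∑ l ∈ range (N + 1), (2 : ℝ) ^ l ≤ 2 ^ (N + 1) := by
      have h3 := geom_sum_eq (by norm_num : (2 : ℝ) ≠ 1) (N + 1)
      rw [h3]
      norm_num
    have h4 : (2 ^ (N + 1) * 4 ^ n * (2 ^ (N + 3)) ^ n / ((2 : ℝ) ^ a) ^ n : ℝ) =
        ((L : ℝ) ^ n)⁻¹ * 4 ^ n * 2 ^ (N + 1) := by
      rw [hb, pow_add (2 : ℝ) b, ← hLr, mul_pow]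
      have h5 : ((L : ℝ) ^ n) ≠ 0 := by positivity
      have h6 : (((2 : ℝ) ^ (N + 3)) ^ n) ≠ 0 := by positivity
      field_simp
    rw [h4]
    exact mul_le_mul_of_nonneg_left h2 (by positivity)
  · intro x hx i
    change ψ x - Bm L e ψ (N + 1) x ≠ 0 at hx
    rw [sum_Sop] at hx
    obtain ⟨l, hl, h0⟩ := Finset.exists_ne_zero_of_sum_ne_zero hx
    have hl' : (l : ℝ) + 1 ≤ (N : ℝ) + 1 := by
      have := Finset.mem_range.1 hl
      exact_mod_cast this
    have h := supp_Sop (supp_Bm (L := L) (e := e) hψs l) h0 i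
    have hlL : ((l : ℝ) + 1) * L ≤ ((N : ℝ) + 1) * L :=
      mul_le_mul_of_nonneg_right hl' (by linarith)
    rcases he1 i with h1 | h1
    · have h2 := h.1 h1
      have h3 := hσ1 i h1
      exact ⟨by linarith [h2.1, h3.1], by linarith [h2.2, h3.2]⟩
    · have h2 := h.2 h1
      have h3 := hσ2 i h1
      exact ⟨by linarith [h2.1, h3.1], by linarith [h2.2, h3.2]⟩
  · exact hbig
  · intro β hβ
    exact moment_Bm hM hL0 he1 hψc hψs (N + 1) β (by omega)

end

end Pool.Agent.W981.BH
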